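import Pool.Agent.W841.PK.ChkS

/-! Soundness of one block of the numerical certificate. -/

set_option autoImplicit false

namespace W839.PK.CBlk

open Finset W841.PK W841.PK.Chk

lemma frc_eq {α : Type} (n : ℕ) (f : ℕ → α) : frc n f = f n := by
  cases n <;> rfl

lemma fval_zero {fl fn fN fL fR : ℕ} (h : 1 ≤ fl) : fval fl fn fN fL fR 0 = fL := by
  have h1 : Nat.ble fl 0 = false := by
    rw [Bool.eq_false_iff]
    intro h2
    rw [Nat.ble_eq] at h2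
    omega
  unfold fval
  rw [h1]
  simp

lemma AF_anti {fl fn fN fL fR : ℕ} (h : InvF fl fn fN fL fR) : Antitone (AF fl fn fN fL fR) := by
  intro l l' hl
  unfold AF
  have h1 : (l + 65536).toNat ≤ (l' + 65536).toNat := Int.toNat_le_toNat (by omega)
  have h2 : ((fval fl fn fN fL fR (l' + 65536).toNat : ℕ) : ℝ) ≤
      (fval fl fn fN fL fR (l + 65536).toNat : ℕ) := by exact_mod_cast h.anti _ _ h1
  gcongr

lemma AF_bd {fl fn fN fL fR : ℕ} (h : InvF fl fn fN fL fR) (l : ℤ) :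
    0 ≤ AF fl fn fN fL fR l ∧ AF fl fn fN fL fR l ≤ 1 := by
  unfold AF
  constructor
  · positivity
  · rw [div_le_one (by positivity)]
    have h1 := h.anti 0 (l + 65536).toNat (Nat.zero_le _)
    rw [fval_zero (by have := h.lo; omega)] at h1
    exact_mod_cast h1.trans h.le

lemma AG_anti {gl gn gN : ℕ} (h : InvG gl gn gN) : Antitone (AG gl gn gN) := by
  intro l l' hl
  unfold AG
  have h1 : (l + 65536).toNat ≤ (l' + 65536).toNat := Int.toNat_le_toNat (by omega)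
  have h2 : ((gval gl gn gN (l' + 65536).toNat : ℕ) : ℝ) ≤
      (gval gl gn gN (l + 65536).toNat : ℕ) := by exact_mod_cast h.anti _ _ h1
  gcongr

lemma AG_bd {gl gn gN : ℕ} (h : InvG gl gn gN) (l : ℤ) :
    0 ≤ AG gl gn gN l ∧ AG gl gn gN l ≤ 1 := by
  unfold AG
  constructor
  · positivity
  · rw [div_le_one (by positivity)]
    have h1 := h.anti 0 (l + 65536).toNat (Nat.zero_le _)
    exact_mod_cast h1.trans h.le

lemma cap_le {w : ℕ} (hw : 1024 ≤ w) : (2 ^ 50 + w - 1) / w ≤ 2 ^ 40 := by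
  apply Nat.le_of_lt_succ
  rw [Nat.div_lt_iff_lt_mul (by omega)]
  have h1 : (2:ℕ) ^ 40 * 1024 ≤ 2 ^ 40 * w := Nat.mul_le_mul_left _ hw
  have h2 : ((2:ℕ) ^ 40).succ * w = 2 ^ 40 * w + w := Nat.succ_mul _ _
  have h3 : (2:ℕ) ^ 50 = 2 ^ 40 * 1024 := by norm_num
  rw [h2, h3]
  omega

lemma cap_ge {w : ℕ} (hw : 1024 ≤ w) : (2 ^ 50 : ℝ) / w ≤ (((2 ^ 50 + w - 1) / w : ℕ) : ℝ) := by
  have hw0 : (0:ℝ) < w := by exact_mod_cast (by omega : 0 < w)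
  rw [div_le_iff₀ hw0]
  have h1 := Nat.div_add_mod (2 ^ 50 + w - 1) w
  have h2 := Nat.mod_lt (2 ^ 50 + w - 1) (show 0 < w by omega)
  have h3 : 2 ^ 50 ≤ ((2 ^ 50 + w - 1) / w) * w := by
    have : w * ((2 ^ 50 + w - 1) / w) = ((2 ^ 50 + w - 1) / w) * w := Nat.mul_comm _ _
    omega
  exact_mod_cast h3

/-- the arithmetic of a window -/
lemma window (vn D e fl fn fN fL fR b j S q Fq : ℕ) (hD : 0 < D) (hDe : D * e = 256)
    (hb : ∀ Y θ : ℝ, fl + 56 * (q + 1) ≤ j + 448 → j + 56 * q + 1 ≤ fl + fn + 448 →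
      (8 * q * (1 / (D:ℝ))) ^ 2 ≤ θ → θ ≤ (8 * (q + 1) * (1 / (D:ℝ))) ^ 2 →
      ((j : ℝ) - 65536) * (1 / D) ≤ Y →
      heat (pl (1 / D) (AF fl fn fN fL fR)) θ Y ≤ ((Fq : ℝ) / 2 ^ 80) / 2 + 4 / 10 ^ 12)
    (hvn : 1024 ≤ vn)
    (hok : barOK D (vn + e ^ 2 * q ^ 2) (vn + e ^ 2 * (q + 1) ^ 2) b j S Fq fl fn q = true)
    (x : ℝ) (hx1 : ((vn : ℝ) + e ^ 2 * q ^ 2) / 1024 ≤ x)
    (hx2 : x ≤ ((vn : ℝ) + e ^ 2 * (q + 1) ^ 2) / 1024) :
    heat (pl (1 / D) (AF fl fn fN fL fR)) (x - (vn : ℝ) / 1024)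
      (((b : ℝ) - 65536) * (1 / D) + (S : ℝ) / 2 ^ 80 * (((vn : ℝ) + e ^ 2 * q ^ 2) / 1024) -
        1 / 2 ^ 30) ≤ 1 / (((vn : ℝ) + e ^ 2 * (q + 1) ^ 2) / 1024) - 2 * (1 / 2 ^ 30) := by
  unfold barOK at hok
  simp only [Bool.and_eq_true, Nat.ble_eq] at hok
  obtain ⟨h1, h2, h3, h4⟩ := hok
  have hD0 : (0:ℝ) < D := by exact_mod_cast hD
  have hDe' : (D:ℝ) * e = 256 := by exact_mod_cast hDe
  have he : (e:ℝ) = 256 / D := by field_simp; linarith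
  have key := hb
    (((b : ℝ) - 65536) * (1 / D) + (S : ℝ) / 2 ^ 80 * (((vn : ℝ) + e ^ 2 * q ^ 2) / 1024) -
        1 / 2 ^ 30) (x - (vn : ℝ) / 1024) h3 h4
    (by
      have : (8 * (q:ℝ) * (1 / D)) ^ 2 = e ^ 2 * q ^ 2 / 1024 := by
        rw [he]; field_simp; try ring
      rw [this]; linarith)
    (by
      have : (8 * ((q:ℝ) + 1) * (1 / D)) ^ 2 = e ^ 2 * (q + 1) ^ 2 / 1024 := by
        rw [he]; field_simp; try ring
      rw [this]; linarith)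
    (by
      have h5 : ((j:ℝ) * 2 ^ 90 + D * 2 ^ 60) ≤ b * 2 ^ 90 + D * S * (vn + e ^ 2 * q ^ 2) := by
        exact_mod_cast h2
      have h6 : ((j:ℝ) * 2 ^ 90 + D * 2 ^ 60) / (D * 2 ^ 90) ≤
          (b * 2 ^ 90 + D * S * (vn + e ^ 2 * q ^ 2)) / (D * 2 ^ 90) := by gcongr
      have h7 : ((j:ℝ) * 2 ^ 90 + D * 2 ^ 60) / (D * 2 ^ 90) = j * (1 / D) + 1 / 2 ^ 30 := by
        field_simp
      have h8 : ((b:ℝ) * 2 ^ 90 + D * S * (vn + e ^ 2 * q ^ 2)) / (D * 2 ^ 90) =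
          b * (1 / D) + (S : ℝ) / 2 ^ 80 * (((vn : ℝ) + e ^ 2 * q ^ 2) / 1024) := by
        field_simp; ring
      rw [h7, h8] at h6
      linarith)
  refine key.trans ?_
  have hu : (0:ℝ) < (vn : ℝ) + e ^ 2 * (q + 1) ^ 2 := by
    have : (0:ℝ) < vn := by exact_mod_cast (by omega : 0 < vn)
    positivity
  have h9 : (Fq:ℝ) * (vn + e ^ 2 * (q + 1) ^ 2) + (vn + e ^ 2 * (q + 1) ^ 2) * 2 ^ 53 ≤
      1024 * 2 ^ 81 := by exact_mod_cast h1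
  have h10 : (Fq:ℝ) + 2 ^ 53 ≤ 1024 * 2 ^ 81 / ((vn : ℝ) + e ^ 2 * (q + 1) ^ 2) := by
    rw [le_div_iff₀ hu]; linarith
  have h11 : 1 / (((vn : ℝ) + e ^ 2 * (q + 1) ^ 2) / 1024) =
      (1024 * 2 ^ 81 / ((vn : ℝ) + e ^ 2 * (q + 1) ^ 2)) / 2 ^ 81 := by
    field_simp
  rw [h11]
  have h12 : ((Fq:ℝ) + 2 ^ 53) / 2 ^ 81 ≤
      (1024 * 2 ^ 81 / ((vn : ℝ) + e ^ 2 * (q + 1) ^ 2)) / 2 ^ 81 := by gcongr
  have h13 : ((Fq:ℝ) + 2 ^ 53) / 2 ^ 81 = (Fq:ℝ) / 2 ^ 80 / 2 + 1 / 2 ^ 28 := by ring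
  rw [h13] at h12
  norm_num at h12 ⊢
  linarith

theorem cblk (hp : S_Pl) (_hh : S_HeatC) (hf : S_StepF) (hg : S_StepG) (hb : S_CBar)
    (hq : S_CSq) : S_CBlk := by
  intro vn D fl fn fN fL fR gl gn gN j0 j1 j2 j3 b h c fn2 k hvn hDd hD hF hG hstep
  obtain ⟨e, he⟩ := hDd
  have hde : 256 / D = e := by rw [he]; exact Nat.mul_div_cancel_left e hD
  have hDe : D * e = 256 := he.symm
  unfold blkStep at hstep
  simp only [frc_eq, Bool.and_eq_true, Nat.ble_eq, hde] at hstep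
  obtain ⟨⟨w0, w1, w2, w3⟩, ⟨g1, g2, g3, g4⟩, ⟨f1, f2, f3, f4, f5⟩, hk⟩ := hstep
  have hvn2 : 1024 ≤ vn + e ^ 2 * 16 := by omega
  have hD0 : (0:ℝ) < D := by exact_mod_cast hD
  have hδ : (0:ℝ) < 1 / D := by positivity
  have hDe' : (D:ℝ) * e = 256 := by exact_mod_cast hDe
  have heR : (e:ℝ) = 256 / D := by field_simp; linarith
  obtain ⟨hF2, hF3⟩ := hf (1 / D) fl fn fN fL fR _ c fn2 hδ hF (cap_le hvn2) f1 f2 f3 f4 f5
  obtain ⟨hG2, hG3⟩ := hg (1 / D) gl gn gN b h hδ hG g1 g2 g3 g4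
  have htau : ((vn + e ^ 2 * 16 : ℕ) : ℝ) / 1024 - (vn : ℝ) / 1024 = (32 * (1 / (D:ℝ))) ^ 2 := by
    push_cast
    rw [heR]; field_simp; ring
  refine ⟨vn + e ^ 2 * 16, _, _, _, _, _, hvn2, hF2, hG2, ?_, hk⟩
  refine ⟨?_, ?_, ?_, ?_, ?_⟩
  · have : (0:ℝ) < (32 * (1 / (D:ℝ))) ^ 2 := by positivity
    linarith
  · exact (hp (1 / D) hδ).2.2.2.1 _ (AF_anti hF2) (AF_bd hF2)
  · exact (hp (1 / D) hδ).2.2.2.1 _ (AG_anti hG2) (AG_bd hG2)
  · intro y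
    rw [htau]
    refine hF3 _ ?_ y
    have h1 := cap_ge hvn2
    have h2 : 1 / (((vn + e ^ 2 * 16 : ℕ) : ℝ) / 1024) * 2 ^ 40 =
        2 ^ 50 / ((vn + e ^ 2 * 16 : ℕ) : ℝ) := by
      have : ((vn + e ^ 2 * 16 : ℕ) : ℝ) ≠ 0 := by
        have : (0:ℝ) < ((vn + e ^ 2 * 16 : ℕ) : ℝ) := by exact_mod_cast (by omega)
        exact this.ne'
      field_simp
      norm_num
    rw [h2]
    exact h1
  · refine ⟨((b:ℝ) - 65536) * (1 / D), 1 / 2 ^ 30, 4, fun q => ((vn : ℝ) + e ^ 2 * q ^ 2) / 1024,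
      fun q => (((match q with
      | 1 => Sq WL1 (Mb gl gn gN b) 1
      | 2 => Sq WL2 (Mb gl gn gN b) 2
      | 3 => Sq WL3 (Mb gl gn gN b) 3
      | _ => Sq WL4 (Mb gl gn gN b) 4 : ℕ) : ℝ)) / 2 ^ 80, by positivity, ?_, ?_, ?_, ?_, ?_, ?_⟩
    · simp
    · push_cast; ring
    · intro q _
      have he0 : (0:ℝ) < e := by rw [heR]; positivity
      have : ((q:ℝ)) ^ 2 < ((q + 1 : ℕ) : ℝ) ^ 2 := by
        push_cast
        have : (0:ℝ) ≤ q := by positivity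
        nlinarith
      simp only []
      gcongr
    · intro q hq4
      have h1 := hq (1 / D) gl gn gN b (q + 1) hδ hG (by omega) (by omega) g4
      have h2 : (8 * ((q + 1 : ℕ) : ℝ) * (1 / (D:ℝ))) ^ 2 =
          ((vn : ℝ) + e ^ 2 * ((q + 1 : ℕ) : ℝ) ^ 2) / 1024 - (vn : ℝ) / 1024 := by
        rw [heR]; field_simp; ring
      rw [h2] at h1
      exact h1
    · intro q hq4 x hx1 hx2
      simp only [Nat.cast_add, Nat.cast_one] at hx2 ⊢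
      have hq4' : q = 0 ∨ q = 1 ∨ q = 2 ∨ q = 3 := by omega
      rcases hq4' with rfl | rfl | rfl | rfl
      · exact window vn D e fl fn fN fL fR b j0 _ 0 _ hD hDe
          (fun Y θ a1 a2 a3 a4 a5 => hb (1 / D) Y θ fl fn fN fL fR j0 0 hδ hF (by norm_num) a1 a2
            a3 a4 a5) hvn (by simpa using w0) x hx1 hx2
      · exact window vn D e fl fn fN fL fR b j1 _ 1 _ hD hDe
          (fun Y θ a1 a2 a3 a4 a5 => hb (1 / D) Y θ fl fn fN fL fR j1 1 hδ hF (by norm_num) a1 a2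
            a3 a4 a5) hvn (by simpa using w1) x hx1 hx2
      · exact window vn D e fl fn fN fL fR b j2 _ 2 _ hD hDe
          (fun Y θ a1 a2 a3 a4 a5 => hb (1 / D) Y θ fl fn fN fL fR j2 2 hδ hF (by norm_num) a1 a2
            a3 a4 a5) hvn (by simpa using w2) x hx1 hx2
      · exact window vn D e fl fn fN fL fR b j3 _ 3 _ hD hDe
          (fun Y θ a1 a2 a3 a4 a5 => hb (1 / D) Y θ fl fn fN fL fR j3 3 hδ hF (by norm_num) a1 a2
            a3 a4 a5) hvn (by simpa using w3) x hx1 hx2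
    · intro y
      rw [htau]
      exact hG3 y

end W839.PK.CBlk
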